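import Pool.Agent.helper23.CO.SpecB

/-! # Row co:CBX (MP_7c3fb3_pr) -/

set_option autoImplicit false

open Finset Filter Topology

namespace CO

open CU

theorem CBX_T (n R : ℕ) [NeZero n] (h : 2 * R + 1 ≤ n) :
    (univ.filter fun a : ZMod n => a.valMinAbs.natAbs ≤ R).card = 2 * R + 1 := by
  have h1 : (univ.filter fun a : ZMod n => a.valMinAbs.natAbs ≤ R).image (fun a => a.valMinAbs) =
      Finset.Icc (-(R : ℤ)) R := by
    ext z
    simp only [Finset.mem_image, Finset.mem_filter, Finset.mem_univ, true_and, Finset.mem_Icc]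
    constructor
    · rintro ⟨a, ha, rfl⟩
      omega
    · rintro ⟨h2, h3⟩
      have h4 : ((z : ℤ) : ZMod n).valMinAbs = z := by
        rw [ZMod.valMinAbs_spec]
        refine ⟨rfl, ?_⟩
        rw [Set.mem_Ioc]
        omega
      refine ⟨(z : ZMod n), ?_, h4⟩
      rw [h4]
      omega
  have h2 : ((univ.filter fun a : ZMod n => a.valMinAbs.natAbs ≤ R).image (fun a => a.valMinAbs)).card =
      (univ.filter fun a : ZMod n => a.valMinAbs.natAbs ≤ R).card := by
    apply Finset.card_image_of_injOn
    intro a _ b _ hab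
    have h3 : a.valMinAbs = b.valMinAbs := hab
    rw [← ZMod.coe_valMinAbs a, h3, ZMod.coe_valMinAbs]
  rw [← h2, h1, Int.card_Icc]
  omega

theorem CBX : CBX_stmt := by
  intro d n R _
  refine ⟨?_, ?_, ?_, ?_⟩
  · intro h
    have h1 : Box R (0 : Site d n) =
        Fintype.piFinset fun _ : Fin d => (univ.filter fun a : ZMod n => a.valMinAbs.natAbs ≤ R) := by
      ext x
      simp only [Box, Near, Finset.mem_filter, Finset.mem_univ, true_and, Fintype.mem_piFinset,
        Pi.zero_apply, sub_zero]
    rw [h1, Fintype.card_piFinset, Finset.prod_const, CBX_T n R h, Finset.card_univ, Fintype.card_fin]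
  · intro x hx y hy
    have hx' : ∀ k, (x k).valMinAbs.natAbs ≤ R := by
      intro k
      have := (Finset.mem_filter.1 hx).2 k
      simpa using this
    have hy' : ∀ k, (y k).valMinAbs.natAbs ≤ R := by
      intro k
      have := (Finset.mem_filter.1 hy).2 k
      simpa using this
    have h1 : ∀ k : Fin d, ((((y - x) k).valMinAbs.natAbs : ℕ) : ℝ) ≤ 2 * R := by
      intro k
      have h2 : ((y - x) k).valMinAbs.natAbs ≤ 2 * R := by
        have h3 := ZMod.natAbs_valMinAbs_add_le (y k) (-(x k))
        have h4 := ZMod.natAbs_valMinAbs_neg (x k)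
        have h5 := hx' k
        have h6 := hy' k
        have h7 : (y - x) k = y k + -(x k) := by
          rw [Pi.sub_apply, sub_eq_add_neg]
        rw [h7]
        omega
      exact_mod_cast h2
    calc nrm (y - x) = ∑ k, ((((y - x) k).valMinAbs.natAbs : ℕ) : ℝ) := rfl
      _ ≤ ∑ _k : Fin d, (2 * R : ℝ) := Finset.sum_le_sum (fun k _ => h1 k)
      _ = 2 * d * R := by
          rw [Finset.sum_const, Finset.card_univ, Fintype.card_fin, nsmul_eq_mul]
          ring
  · intro x
    have h1 : ∀ k : Fin d, (((x k).valMinAbs.natAbs : ℕ) : ℝ) ≤ n / 2 := by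
      intro k
      have h2 := ZMod.natAbs_valMinAbs_le (x k)
      calc (((x k).valMinAbs.natAbs : ℕ) : ℝ) ≤ ((n / 2 : ℕ) : ℝ) := by exact_mod_cast h2
        _ ≤ n / 2 := Nat.cast_div_le
    calc nrm x = ∑ k, (((x k).valMinAbs.natAbs : ℕ) : ℝ) := rfl
      _ ≤ ∑ _k : Fin d, (n / 2 : ℝ) := Finset.sum_le_sum (fun k _ => h1 k)
      _ = d * n / 2 := by
          rw [Finset.sum_const, Finset.card_univ, Fintype.card_fin, nsmul_eq_mul]
          ring
  · intro x
    exact Finset.sum_nonneg (fun k _ => Nat.cast_nonneg _)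

end CO
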